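import Pool.Agent.H91.LF.Defs2

/-!
Module DEC of the project LF on `MP_c59857_nt`: decoupling by entropy decrement in `d` variables.
-/

set_option autoImplicit false

open Finset Filter Topology

namespace Pool.Agent.H39.LF

open Pool.Agent.H91.LF
open Pool.Agent.H24.T2 (Pset)
open Pool.Agent.H18.MR (FAP law ent mi gibbs law_nonneg law_sum law_le_comp sum_law_comp law_comp)

/-- Donsker–Varadhan for bounded functions. -/
theorem dv {Ω : Type*} (μ : FAP Ω) {α β : Type*} [Fintype α] [DecidableEq α] [Fintype β]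
    [DecidableEq β] (X : Ω → α) (Y : Ω → β) (f : α × β → ℝ) (hf : ∀ t, |f t| ≤ 1) (s : ℝ)
    (hs : 0 < s) (hs1 : s ≤ 1) :
    ∑ t, law μ (fun ω => (X ω, Y ω)) t * f t ≤
      mi μ X Y / s + ∑ t : α × β, law μ X t.1 * law μ Y t.2 * f t + s := by
  set T : Ω → α × β := fun ω => (X ω, Y ω) with hT
  set p : α × β → ℝ := law μ T with hp
  set px : α → ℝ := law μ X with hpx
  set py : β → ℝ := law μ Y with hpy
  have e1 : ∀ t, p t ≤ px t.1 := fun t => law_le_comp μ T Prod.fst t
  have e2 : ∀ t, p t ≤ py t.2 := fun t => law_le_comp μ T Prod.snd t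
  have p0 : ∀ t, 0 ≤ p t := law_nonneg μ T
  have g := gibbs Finset.univ p (fun t => px t.1 * py t.2 * Real.exp (s * f t)) p0
    (fun t => mul_nonneg (mul_nonneg (law_nonneg μ _ _) (law_nonneg μ _ _)) (Real.exp_pos _).le)
    (fun t ht => by
      by_contra hne
      have hpos : 0 < p t := lt_of_le_of_ne (p0 t) (Ne.symm hne)
      have h1 : 0 < px t.1 := hpos.trans_le (e1 t)
      have h2 : 0 < py t.2 := hpos.trans_le (e2 t)
      have : 0 < px t.1 * py t.2 * Real.exp (s * f t) := by positivity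
      linarith)
  have hps : ∑ t, p t = 1 := law_sum μ T
  have hlog : ∀ t, p t * Real.log (px t.1 * py t.2 * Real.exp (s * f t)) =
      p t * Real.log (px t.1) + p t * Real.log (py t.2) + s * (p t * f t) := by
    intro t
    rcases eq_or_lt_of_le (p0 t) with h0 | h0
    · rw [← h0]; ring
    · have h1 : 0 < px t.1 := h0.trans_le (e1 t)
      have h2 : 0 < py t.2 := h0.trans_le (e2 t)
      rw [Real.log_mul (mul_pos h1 h2).ne' (Real.exp_pos _).ne', Real.log_mul h1.ne' h2.ne',
        Real.log_exp]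
      ring
  have htot : ∑ t : α × β, px t.1 * py t.2 = 1 := by
    rw [Fintype.sum_prod_type]
    simp only
    rw [← Finset.sum_mul_sum, law_sum, law_sum, one_mul]
  have hexp : ∑ t : α × β, px t.1 * py t.2 * Real.exp (s * f t) ≤
      1 + s * (∑ t : α × β, px t.1 * py t.2 * f t) + s ^ 2 := by
    calc ∑ t : α × β, px t.1 * py t.2 * Real.exp (s * f t)
        ≤ ∑ t : α × β, (px t.1 * py t.2 + s * (px t.1 * py t.2 * f t) +
            s ^ 2 * (px t.1 * py t.2)) := by
          apply Finset.sum_le_sum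
          intro t _
          have hn : 0 ≤ px t.1 * py t.2 := mul_nonneg (law_nonneg μ _ _) (law_nonneg μ _ _)
          have habs : |s * f t| ≤ 1 := by
            rw [abs_mul, abs_of_pos hs]
            calc s * |f t| ≤ 1 * 1 := by
                  apply mul_le_mul hs1 (hf t) (abs_nonneg _) zero_le_one
              _ = 1 := one_mul 1
          have h1 := Real.abs_exp_sub_one_sub_id_le habs
          have h2 := (abs_le.1 h1).2
          have h3 : (s * f t) ^ 2 ≤ s ^ 2 := by
            rw [mul_pow]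
            have : (f t) ^ 2 ≤ 1 := by
              rw [← sq_abs]
              have := hf t
              nlinarith [abs_nonneg (f t)]
            nlinarith [sq_nonneg s]
          have h4 : Real.exp (s * f t) ≤ 1 + s * f t + s ^ 2 := by linarith
          calc px t.1 * py t.2 * Real.exp (s * f t)
              ≤ px t.1 * py t.2 * (1 + s * f t + s ^ 2) := by gcongr
            _ = _ := by ring
      _ = 1 + s * (∑ t : α × β, px t.1 * py t.2 * f t) + s ^ 2 := by
          rw [Finset.sum_add_distrib, Finset.sum_add_distrib, ← Finset.mul_sum,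
            ← Finset.mul_sum, htot, mul_one]
  rw [Finset.sum_congr rfl (fun t _ => hlog t), Finset.sum_add_distrib, Finset.sum_add_distrib,
    ← Finset.mul_sum] at g
  have s1 := sum_law_comp μ T Prod.fst (fun u => Real.log (px u))
  have s2 := sum_law_comp μ T Prod.snd (fun u => Real.log (py u))
  rw [← hp] at s1 s2
  rw [s1, s2, hps] at g
  have u1 : ent μ T = -∑ t, p t * Real.log (p t) := rfl
  have u2 : ent μ X = -∑ t, px t * Real.log (px t) := rfl
  have u3 : ent μ Y = -∑ t, py t * Real.log (py t) := rfl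
  have u4 : mi μ X Y = ent μ X + ent μ Y - ent μ T := rfl
  have v2 : ∑ b, law μ (fun ω => (T ω).1) b * Real.log (px b) = -ent μ X := by
    rw [u2, neg_neg]
  have v3 : ∑ b, law μ (fun ω => (T ω).2) b * Real.log (py b) = -ent μ Y := by
    rw [u3, neg_neg]
  rw [v2, v3] at g
  have key : s * ∑ t, p t * f t ≤ mi μ X Y + s * (∑ t : α × β, px t.1 * py t.2 * f t) +
      s ^ 2 := by
    rw [u4, u1]
    linarith
  have : ∑ t, p t * f t ≤ (mi μ X Y + s * (∑ t : α × β, px t.1 * py t.2 * f t) + s ^ 2) / s := by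
    rw [le_div_iff₀ hs]
    linarith
  calc ∑ t, p t * f t ≤ (mi μ X Y + s * (∑ t : α × β, px t.1 * py t.2 * f t) + s ^ 2) / s := this
    _ = _ := by field_simp

/-- Two sided form. -/
theorem dv_abs {Ω : Type*} (μ : FAP Ω) {α β : Type*} [Fintype α] [DecidableEq α] [Fintype β]
    [DecidableEq β] (X : Ω → α) (Y : Ω → β) (f : α × β → ℝ) (hf : ∀ t, |f t| ≤ 1) (s : ℝ)
    (hs : 0 < s) (hs1 : s ≤ 1) :
    |∑ t, law μ (fun ω => (X ω, Y ω)) t * f t - ∑ t : α × β, law μ X t.1 * law μ Y t.2 * f t| ≤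
      mi μ X Y / s + s := by
  rw [abs_le]
  constructor
  · have h := dv μ X Y (fun t => - f t) (fun t => by simpa using hf t) s hs hs1
    simp only [mul_neg, Finset.sum_neg_distrib] at h
    linarith
  · have h := dv μ X Y f hf s hs hs1
    linarith

/-! ## Means -/

variable {d : ℕ}

theorem bdd_const {Ω : Type*} (c : ℝ) : Bdd (fun _ : Ω => c) := ⟨|c|, fun _ => le_refl _⟩

theorem bdd_add {Ω : Type*} {f g : Ω → ℝ} (hf : Bdd f) (hg : Bdd g) :
    Bdd (fun ω => f ω + g ω) := by
  obtain ⟨C, hC⟩ := hf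
  obtain ⟨D, hD⟩ := hg
  exact ⟨C + D, fun ω => (abs_add_le _ _).trans (add_le_add (hC ω) (hD ω))⟩

theorem bdd_smul {Ω : Type*} {f : Ω → ℝ} (c : ℝ) (hf : Bdd f) : Bdd (fun ω => c * f ω) := by
  obtain ⟨C, hC⟩ := hf
  refine ⟨|c| * C, fun ω => ?_⟩
  rw [abs_mul]
  exact mul_le_mul_of_nonneg_left (hC ω) (abs_nonneg c)

theorem bdd_sum {Ω ι : Type*} (S : Finset ι) (f : ι → Ω → ℝ) (hf : ∀ i ∈ S, Bdd (f i)) :
    Bdd (fun ω => ∑ i ∈ S, f i ω) := by
  classical
  induction S using Finset.induction_on with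
  | empty => simpa using bdd_const (Ω := Ω) 0
  | insert a S ha ih =>
    simp only [Finset.sum_insert ha]
    exact bdd_add (hf a (Finset.mem_insert_self a S))
      (ih fun i hi => hf i (Finset.mem_insert_of_mem hi))

theorem bdd_ite {Ω : Type*} (S : Ω → Prop) [DecidablePred S] : 
    Bdd (fun ω => if S ω then (1 : ℝ) else 0) :=
  ⟨1, fun ω => by dsimp only; split_ifs <;> simp⟩

theorem E_zero (M : Mean d) : M.E (fun _ => 0) = 0 := by
  have h := M.smul 0 (fun _ => 1) (bdd_const 1)
  simpa using h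

theorem E_sum (M : Mean d) {ι : Type*} (S : Finset ι) (f : ι → (Fin d → ℤ) → ℝ)
    (hf : ∀ i ∈ S, Bdd (f i)) : M.E (fun ω => ∑ i ∈ S, f i ω) = ∑ i ∈ S, M.E (f i) := by
  classical
  induction S using Finset.induction_on with
  | empty => simpa using E_zero M
  | insert a S ha ih =>
    simp only [Finset.sum_insert ha]
    rw [M.add _ _ (hf a (Finset.mem_insert_self a S))
      (bdd_sum S f fun i hi => hf i (Finset.mem_insert_of_mem hi)),
      ih fun i hi => hf i (Finset.mem_insert_of_mem hi)]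

open Classical in
/-- The finitely additive probability of a mean. -/
noncomputable def toFAP (M : Mean d) : FAP (Fin d → ℤ) where
  P S := M.E (fun ω => if ω ∈ S then 1 else 0)
  nonneg S := M.nonneg _ (bdd_ite _) (fun ω => by split_ifs <;> simp)
  add S T h := by
    rw [← M.add _ _ (bdd_ite _) (bdd_ite _)]
    congr 1
    funext ω
    rw [Set.disjoint_left] at h
    by_cases h1 : ω ∈ S
    · simp [h1, h h1]
    · simp [h1]
  univ := by simpa using M.one

open Classical in
theorem toFAP_P (M : Mean d) (S : Set (Fin d → ℤ)) :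
    (toFAP M).P S = M.E (fun ω => if ω ∈ S then 1 else 0) := rfl

theorem toFAP_shift (M : Mean d) (v : Fin d → ℤ) (S : Set (Fin d → ℤ)) :
    (toFAP M).P {ω | ω + v ∈ S} = (toFAP M).P S := by
  classical
  rw [toFAP_P, toFAP_P, ← M.shift v (fun ω => if ω ∈ S then 1 else 0) (bdd_ite _)]
  rfl

theorem E_comp (M : Mean d) {α : Type*} [Fintype α] [DecidableEq α] (Z : (Fin d → ℤ) → α)
    (F : α → ℝ) : M.E (fun ω => F (Z ω)) = ∑ z, law (toFAP M) Z z * F z := by
  classical
  have h1 : (fun ω => F (Z ω)) = fun ω => ∑ z, F z * (if Z ω = z then 1 else 0) := by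
    funext ω
    simp
  rw [h1, E_sum M Finset.univ (fun z ω => F z * (if Z ω = z then 1 else 0))
    (fun z _ => bdd_smul _ (bdd_ite _))]
  apply Finset.sum_congr rfl
  intro z _
  rw [M.smul _ _ (bdd_ite _), mul_comm]
  congr 1
  unfold law
  rw [toFAP_P]
  congr 1
  funext ω
  simp only [Set.mem_preimage, Set.mem_singleton_iff]

/-! ## Uniform distribution of the residues -/

theorem law_res (M : Mean d) (p : ℕ) [NeZero p] (y : Fin d → ZMod p) :
    law (toFAP M) (resv (d := d) p) y = 1 / (p : ℝ) ^ d := by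
  classical
  have hall : ∀ y : Fin d → ZMod p, law (toFAP M) (resv (d := d) p) y =
      law (toFAP M) (resv (d := d) p) 0 := by
    intro y
    unfold law
    rw [← toFAP_shift M (fun i => ((y i).val : ℤ)) (resv (d := d) p ⁻¹' {y})]
    congr 1
    ext ω
    simp only [Set.mem_ofPred_eq, Set.mem_preimage, Set.mem_singleton_iff]
    constructor
    · intro h
      funext i
      have := congrFun h i
      simp only [resv, Pi.add_apply, Int.cast_add, ZMod.natCast_val] at this
      simpa [resv] using this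
    · intro h
      funext i
      have := congrFun h i
      simp only [resv, Pi.zero_apply] at this
      simp [resv, this]
  have hs := law_sum (toFAP M) (resv (d := d) p)
  rw [Finset.sum_congr rfl (fun y _ => hall y)] at hs
  simp only [Finset.sum_const, Finset.card_univ, nsmul_eq_mul, Fintype.card_pi,
    ZMod.card, Finset.prod_const, Fintype.card_fin, Nat.cast_pow] at hs
  rw [hall y]
  have hp : (p : ℝ) ^ d ≠ 0 := pow_ne_zero _ (Nat.cast_ne_zero.2 (NeZero.ne p))
  field_simp
  linarith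

/-- The decoupling for one modulus. -/
theorem key (M : Mean d) (p W : ℕ) [NeZero p] (hWp : Nat.Coprime W p)
    (g : (Fin d → ℤ) → ℝ) (hg : ∀ ω, |g ω| ≤ 1) {α : Type*} [Fintype α] [DecidableEq α]
    (X : (Fin d → ℤ) → α)
    (hX : ∀ ω ω', X ω = X ω' → ∀ k : Fin d → ℤ, (∀ i, 0 ≤ k i ∧ k i < p) →
      g (ω + (W : ℤ) • k) = g (ω' + (W : ℤ) • k)) :
    ∃ f : α × (Fin d → ZMod p) → ℝ, (∀ t, |f t| ≤ 1) ∧
      (∀ (D : ∀ ω : Fin d → ℤ, Decidable (∀ i, (p : ℤ) ∣ ω i)),
        M.E (fun ω => (p : ℝ) ^ d * (@ite _ (∀ i, (p : ℤ) ∣ ω i) (D ω) (g ω) 0)) =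
        ∑ t, law (toFAP M) (fun ω => (X ω, resv (d := d) p ω)) t * f t) ∧
      M.E g = ∑ t : α × (Fin d → ZMod p),
        law (toFAP M) X t.1 * law (toFAP M) (resv (d := d) p) t.2 * f t := by
  classical
  set c : ZMod p := (W : ZMod p)⁻¹ with hc
  have hWc : (W : ZMod p) * c = 1 := ZMod.coe_mul_inv_eq_one W hWp
  set kap : (Fin d → ZMod p) → Fin d → ℤ := fun y i => ((-(y i) * c).val : ℤ) with hkap
  have hkapb : ∀ y i, 0 ≤ kap y i ∧ kap y i < p := by
    intro y i
    constructor
    · simp only [hkap]; positivity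
    · simp only [hkap]
      exact_mod_cast ZMod.val_lt _
  set G : α → (Fin d → ℤ) → ℝ := fun a k =>
    if h : ∃ ω, X ω = a then g (h.choose + (W : ℤ) • k) else 0 with hG
  have hGb : ∀ a k, |G a k| ≤ 1 := by
    intro a k
    simp only [hG]
    split_ifs with h
    · exact hg _
    · simp
  have hGX : ∀ (ω k : Fin d → ℤ), (∀ i, 0 ≤ k i ∧ k i < (p : ℤ)) →
      G (X ω) k = g (ω + (W : ℤ) • k) := by
    intro ω k hk
    have h : ∃ ω', X ω' = X ω := ⟨ω, rfl⟩
    simp only [hG]
    rw [dif_pos h]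
    exact hX _ _ h.choose_spec k hk
  have gb : Bdd g := ⟨1, hg⟩
  refine ⟨fun t => G t.1 (kap t.2), fun t => hGb _ _, ?_, ?_⟩
  · intro D
    have hdiv : ∀ (ω : Fin d → ℤ) (y : Fin d → ZMod p),
        (∀ i, (p : ℤ) ∣ (ω + (W : ℤ) • kap y) i) ↔ y = resv p ω := by
      intro ω y
      constructor
      · intro h
        funext i
        have h1 := (ZMod.intCast_zmod_eq_zero_iff_dvd _ p).2 (h i)
        simp only [hkap, Pi.add_apply, Pi.smul_apply, smul_eq_mul, Int.cast_add, Int.cast_mul,
          Int.cast_natCast, ZMod.natCast_zmod_val] at h1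
        have h2 : (W : ZMod p) * (-(y i) * c) = -(y i) := by
          rw [mul_left_comm, hWc, mul_one]
        rw [h2] at h1
        simp only [resv]
        linear_combination -h1
      · rintro rfl i
        apply (ZMod.intCast_zmod_eq_zero_iff_dvd _ p).1
        simp only [hkap, Pi.add_apply, Pi.smul_apply, smul_eq_mul, Int.cast_add, Int.cast_mul,
          Int.cast_natCast, ZMod.natCast_zmod_val]
        have h2 : (W : ZMod p) * (-(resv p ω i) * c) = -(resv p ω i) := by
          rw [mul_left_comm, hWc, mul_one]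
        rw [h2]
        simp [resv]
    set u : (Fin d → ℤ) → ℝ := fun ω => if ∀ i, (p : ℤ) ∣ ω i then g ω else 0 with hu
    have ub : Bdd u := ⟨1, fun ω => by
      simp only [hu]
      split_ifs
      · exact hg _
      · simp⟩
    have e1 : M.E (fun ω => (p : ℝ) ^ d * (@ite _ (∀ i, (p : ℤ) ∣ ω i) (D ω) (g ω) 0)) =
        (p : ℝ) ^ d * M.E u := by
      rw [← M.smul _ _ ub]
    have e2 : (p : ℝ) ^ d * M.E u = ∑ y : Fin d → ZMod p, M.E (fun ω => u (ω + (W : ℤ) • kap y)) := by
      rw [Finset.sum_congr rfl (fun y _ => M.shift _ _ ub)]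
      simp [Fintype.card_pi]
    have e3 : ∑ y : Fin d → ZMod p, M.E (fun ω => u (ω + (W : ℤ) • kap y)) =
        M.E (fun ω => G (X ω) (kap (resv p ω))) := by
      rw [← E_sum M Finset.univ (fun y ω => u (ω + (W : ℤ) • kap y))]
      · congr 1
        funext ω
        rw [hGX ω _ (hkapb _), Finset.sum_eq_single (resv p ω)]
        · simp only [hu]
          rw [if_pos ((hdiv ω _).2 rfl)]
        · intro y _ hy
          simp only [hu]
          rw [if_neg (fun h => hy ((hdiv ω y).1 h))]
        · simp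
      · intro y _
        obtain ⟨C, hC⟩ := ub
        exact ⟨C, fun ω => hC _⟩
    rw [e1, e2, e3]
    exact E_comp M (fun ω => (X ω, resv (d := d) p ω)) (fun t => G t.1 (kap t.2))
  · rw [Fintype.sum_prod_type, Finset.sum_comm]
    have e1 : ∀ y : Fin d → ZMod p, ∑ a, law (toFAP M) X a * law (toFAP M) (resv (d := d) p) y *
        G a (kap y) = 1 / (p : ℝ) ^ d * M.E g := by
      intro y
      rw [law_res M p y]
      have e2 : M.E g = ∑ a, law (toFAP M) X a * G a (kap y) := by
        rw [← E_comp M X (fun a => G a (kap y)), ← M.shift ((W : ℤ) • kap y) g gb]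
        congr 1
        funext ω
        rw [hGX ω _ (hkapb y)]
      rw [e2, Finset.mul_sum]
      apply Finset.sum_congr rfl
      intro a _
      ring
    simp only
    rw [Finset.sum_congr rfl (fun y _ => e1 y)]
    have hp : (p : ℝ) ≠ 0 := Nat.cast_ne_zero.2 (NeZero.ne p)
    simp only [Finset.sum_const, Finset.card_univ, Fintype.card_pi, ZMod.card, Finset.prod_const,
      Fintype.card_fin, nsmul_eq_mul, Nat.cast_pow]
    field_simp

theorem dec_main (h : StatementENT) : StatementDEC := by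
  classical
  obtain ⟨c₀, hc₀, h⟩ := h
  refine ⟨c₀, hc₀, ?_⟩
  intro d M A _ x e Q W R θ m₀ hQ hW hWQ hR hθ
  set s : ℝ := min 1 (θ / 2) with hs
  have hs0 : 0 < s := lt_min one_pos (by linarith)
  have hs1 : s ≤ 1 := min_le_left _ _
  have hs2 : s ≤ θ / 2 := min_le_right _ _
  obtain ⟨m, hm, hcard, hent⟩ := h d (toFAP M) (toFAP_shift M) A inferInstance x e Q R
    (s * (θ / 2)) m₀ hQ hR (by positivity)
  refine ⟨m, hm, hcard, ?_⟩
  intro g hg hgx
  have hP : ∀ p ∈ Pset Q m, ∀ (D : ∀ ω : Fin d → ℤ, Decidable (∀ i, (p : ℤ) ∣ ω i)),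
      |M.E (fun ω => (p : ℝ) ^ d * (@ite _ (∀ i, (p : ℤ) ∣ ω i) (D ω) (g p ω) 0))
      - M.E (g p)| ≤ miV (toFAP M) (blkv x e (R * 2 ^ m)) p / s + s := by
    intro p hp D
    have hp' := (Finset.mem_filter.1 hp).2
    have hpp : p.Prime := hp'.1
    have : NeZero p := ⟨hpp.ne_zero⟩
    have hcop : Nat.Coprime W p := by
      have h1 : p ≡ 1 [MOD W] := hp'.2.of_dvd hWQ
      have h2 := h1.gcd_eq
      rw [Nat.gcd_one_left] at h2
      rw [Nat.coprime_comm]
      exact h2
    obtain ⟨f, hf, hf1, hf2⟩ := key M p W hcop (g p) (hg p hp) (blkv x e (R * 2 ^ m)) (by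
      intro ω ω' hb k hk
      apply hgx p hp ω ω' _ k hk
      intro j hj
      exact congrFun hb ⟨j, hj⟩)
    have h3 := dv_abs (toFAP M) (blkv x e (R * 2 ^ m)) (resv (d := d) p) f hf s hs0 hs1
    rw [← hf1 D, ← hf2] at h3
    have h4 : miV (toFAP M) (blkv x e (R * 2 ^ m)) p =
        Pool.Agent.H18.MR.mi (toFAP M) (blkv x e (R * 2 ^ m)) (resv (d := d) p) := by
      unfold miV
      rw [dif_neg hpp.ne_zero]
    rw [h4]
    exact h3
  calc _ ≤ ∑ p ∈ Pset Q m, (miV (toFAP M) (blkv x e (R * 2 ^ m)) p / s + s) :=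
        Finset.sum_le_sum (fun p hp => hP p hp _)
    _ = (∑ p ∈ Pset Q m, miV (toFAP M) (blkv x e (R * 2 ^ m)) p) / s +
        (Pset Q m).card * s := by
        rw [Finset.sum_add_distrib, Finset.sum_div, Finset.sum_const, nsmul_eq_mul]
    _ ≤ (s * (θ / 2) * (Pset Q m).card) / s + (Pset Q m).card * (θ / 2) := by
        gcongr
    _ = θ * (Pset Q m).card := by
        field_simp
        ring

end Pool.Agent.H39.LF
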