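import Pool.Agent.H28.LF.T1
import Pool.Agent.H28.LF.T2
import Pool.Agent.H67.AG.T1

/-!
# X4: the second moment (`lfu_modules`, MP_c59857_nt)
-/

set_option autoImplicit false

open MeasureTheory ProbabilityTheory Filter Topology Finset
open scoped Nat ENNReal

namespace Pool.Agent.H39.LF

open Pool.Agent.H28.LF
open Pool.Agent.H67.AG (avgP ul Inv Rt Av SA kap JJ TT InvZ nxt triv tow XN PN TN XX PX TX prX Fac)

section aux

variable {Ω : Type} [mΩ : MeasurableSpace Ω]

theorem meas_iter (T : Ω ≃ᵐ Ω) (n : ℕ) : Measurable (T^[n]) := T.measurable.iterate n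

/-- the invariant sets of `T` are invariant under the powers -/
theorem inv_le (T : Ω ≃ᵐ Ω) (n : ℕ) : Inv T 1 ≤ Inv T n := by
  intro A hA
  obtain ⟨h1, h2⟩ := hA
  refine ⟨h1, ?_⟩
  have h3 : T ⁻¹' A = A := h2
  induction n with
  | zero => rfl
  | succ n ih => rw [Function.iterate_succ, Set.preimage_comp, ih, h3]

theorem inv_le_m (T : Ω ≃ᵐ Ω) (n : ℕ) : Inv T n ≤ mΩ := MeasurableSpace.invariants_le _

/-- a set invariant under `T`: pointwise -/
theorem mem_iter {T : Ω ≃ᵐ Ω} {A : Set Ω} (hA : MeasurableSet[Inv T 1] A) (n : ℕ) (ω : Ω) :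
    T^[n] ω ∈ A ↔ ω ∈ A := by
  have h1 := (inv_le T n A hA).2
  exact ⟨fun h => h1 ▸ h, fun h => by rw [← h1] at h; exact h⟩

/-- integrals over invariant sets are invariant -/
theorem int_shift (P : Measure Ω) [IsProbabilityMeasure P] (T : Ω ≃ᵐ Ω)
    (hT : MeasurePreserving T P P) {A : Set Ω} (hA : MeasurableSet[Inv T 1] A) (t : ℕ)
    (f : Ω → ℝ) : ∫ ω in A, f (T^[t] ω) ∂P = ∫ ω in A, f ω ∂P := by
  have h1 := (inv_le T t A hA)
  have hmp : MeasurePreserving (T^[t]) P P := hT.iterate t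
  have he : MeasurableEmbedding (T^[t]) := by
    have : (T^[t]) = ((T.toEquiv ^ t : Equiv.Perm Ω) : Ω → Ω) := by
      rw [Equiv.Perm.coe_pow]; rfl
    exact { injective := T.injective.iterate t
            measurable := meas_iter T t
            measurableSet_image' := by
              intro s hs
              have h5 : T^[t] '' s = (T.symm^[t]) ⁻¹' s := by
                refine congrFun (Set.image_eq_preimage_of_inverse ?_ ?_) s
                · exact Function.LeftInverse.iterate (g := T.symm) (f := T) T.symm_apply_apply t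
                · exact Function.LeftInverse.iterate (g := T) (f := T.symm) T.apply_symm_apply t
              rw [h5]
              exact (T.symm.measurable.iterate t) hs }
  have h2 := hmp.setIntegral_preimage_emb he f A
  rw [h1.2] at h2
  exact h2

theorem comp_meas {α β : Type} [Countable α] [MeasurableSpace α] [MeasurableSingletonClass α]
    [MeasurableSpace β] (G : α → Ω → β) (hG : ∀ i, Measurable (G i)) (u : Ω → α)
    (hu : Measurable u) : Measurable fun ω => G (u ω) ω :=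
  (measurable_from_prod_countable_right (f := fun p : α × Ω => G p.1 p.2) hG).comp
    (hu.prodMk measurable_id)

theorem int_of (P : Measure Ω) [IsProbabilityMeasure P] {f : Ω → ℝ} (hf : Measurable f) {C : ℝ}
    (hC : ∀ ω, |f ω| ≤ C) : Integrable f P :=
  Integrable.of_bound hf.aestronglyMeasurable C (Eventually.of_forall fun ω => by
    rw [Real.norm_eq_abs]; exact hC ω)

/-- the projections to the invariant sets of `T ^ M` and of `T` -/
theorem proj_diff (hW : Pool.Agent.H67.AG.T_PW) (P : Measure Ω) [IsProbabilityMeasure P]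
    (T : Ω ≃ᵐ Ω) (hT : MeasurePreserving T P P) {A : Set Ω} (hA : MeasurableSet[Inv T 1] A)
    (f : Ω → ℝ) (hf : Measurable f) (hf1 : ∀ ω, |f ω| ≤ 1) (M : ℕ) (hM : 0 < M) :
    ∫ ω in A, |(P[f | Inv T M]) ω - (P[f | Inv T 1]) ω| ∂P ≤
      (∑ r ∈ range M, ∫ ω in A, |f ω - f (T^[r] ω)| ∂P) / M := by
  have hPW := hW Ω P T 1 M f hT hf ⟨1, hf1⟩ one_pos hM
  simp only [one_mul] at hPW
  have hfi : Integrable f P := int_of P hf hf1
  have hfr : ∀ r, Integrable (fun ω => f (T^[r] ω)) P := fun r =>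
    int_of P (hf.comp (meas_iter T r)) (C := 1) fun ω => hf1 _
  have hDi : ∀ r, Integrable (fun ω => |f ω - f (T^[r] ω)|) P := fun r =>
    (hfi.sub (hfr r)).abs
  have hM0 : (0 : ℝ) < M := by exact_mod_cast hM
  have hc : ∀ r, ∀ᵐ ω ∂P, |(P[f | Inv T M]) ω - (P[fun ω' => f (T^[r] ω') | Inv T M]) ω| ≤
      (P[fun ω' => |f ω' - f (T^[r] ω')| | Inv T M]) ω := by
    intro r
    have h1 := condExp_sub hfi (hfr r) (Inv T M)
    have h2 : P[f - (fun ω' => f (T^[r] ω')) | Inv T M] ≤ᵐ[P]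
        P[fun ω' => |f ω' - f (T^[r] ω')| | Inv T M] :=
      condExp_mono (hfi.sub (hfr r)) (hDi r) (Eventually.of_forall fun ω => le_abs_self _)
    have h3 : P[-(f - (fun ω' => f (T^[r] ω'))) | Inv T M] ≤ᵐ[P]
        P[fun ω' => |f ω' - f (T^[r] ω')| | Inv T M] :=
      condExp_mono (hfi.sub (hfr r)).neg (hDi r) (Eventually.of_forall fun ω => neg_le_abs _)
    have h4 := condExp_neg (f - (fun ω' => f (T^[r] ω'))) (Inv T M) (μ := P)
    filter_upwards [h1, h2, h3, h4] with ω h1 h2 h3 h4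
    rw [h4, Pi.neg_apply, h1] at h3
    rw [h1] at h2
    simp only [Pi.sub_apply] at h2 h3
    exact abs_le.2 ⟨by linarith, h2⟩
  have hall : ∀ᵐ ω ∂P, ∀ r ∈ range M,
      |(P[f | Inv T M]) ω - (P[fun ω' => f (T^[r] ω') | Inv T M]) ω| ≤
      (P[fun ω' => |f ω' - f (T^[r] ω')| | Inv T M]) ω := by
    exact (ae_all_iff.2 hc).mono fun ω h r _ => h r
  have hle : ∀ᵐ ω ∂P, |(P[f | Inv T M]) ω - (P[f | Inv T 1]) ω| ≤
      (∑ r ∈ range M, (P[fun ω' => |f ω' - f (T^[r] ω')| | Inv T M]) ω) / M := by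
    filter_upwards [hPW, hall] with ω h1 h2
    have h3 : (P[f | Inv T M]) ω - (P[f | Inv T 1]) ω =
        (∑ r ∈ range M, ((P[f | Inv T M]) ω -
          (P[fun ω' => f (T^[r] ω') | Inv T M]) ω)) / M := by
      rw [h1, Finset.sum_sub_distrib, Finset.sum_const, Finset.card_range, nsmul_eq_mul]
      field_simp
    rw [h3, abs_div, abs_of_pos hM0]
    gcongr
    exact (Finset.abs_sum_le_sum_abs _ _).trans (Finset.sum_le_sum h2)
  have hA' := inv_le T M A hA
  calc ∫ ω in A, |(P[f | Inv T M]) ω - (P[f | Inv T 1]) ω| ∂P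
      ≤ ∫ ω in A, (∑ r ∈ range M, (P[fun ω' => |f ω' - f (T^[r] ω')| | Inv T M]) ω) / M ∂P := by
        refine integral_mono_ae ?_ ?_ (ae_restrict_of_ae hle)
        · exact (integrable_condExp.sub integrable_condExp).abs.integrableOn
        · exact ((integrable_finsetSum _ fun r _ => integrable_condExp).div_const _).integrableOn
    _ = (∑ r ∈ range M, ∫ ω in A, |f ω - f (T^[r] ω)| ∂P) / M := by
        rw [integral_div, integral_finsetSum _ fun r _ => integrable_condExp.integrableOn]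
        congr 1
        exact Finset.sum_congr rfl fun r _ => setIntegral_condExp (inv_le_m T M) (hDi r) hA'

end aux

theorem pf_X4 (hP : T_PIA) (hC : T_CDB) (hW : Pool.Agent.H67.AG.T_PW) : T_X4 := by
  intro ε hε
  obtain ⟨w₀, hw₀⟩ := hP ε hε
  refine ⟨w₀, fun w hw d e t k N A hA hk hN => ?_⟩
  have hM : 0 < w ! * k := Nat.mul_pos (Nat.factorial_pos w) hk
  have hsm : ∀ n, Measurable fun ω => e.s (e.T^[n] ω) := fun n => e.sm.comp (meas_iter e.T n)
  have hgm : Measurable e.g := e.fac.1.measurable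
  have hes : ∀ a b, MeasurableSet (d.e a b) := fun a b => (d.em a b).1
  have hPtm : Measurable (e.Pt t) := by
    classical
    have h1 := comp_meas (fun (u : Fin d.n × Fin d.n) (ω : e.Ω) =>
        (if e.g ω ∈ d.e u.1 u.2 then (0 : ℝ) else 1)) (fun i =>
        Measurable.ite (hgm (hes _ _)) measurable_const measurable_const)
        (fun ω => (e.s ω, e.s (e.T^[t] ω))) (e.sm.prodMk (hsm t))
    have h2 : e.Pt t = fun ω => (if e.g ω ∈ d.e (e.s ω) (e.s (e.T^[t] ω)) then (0 : ℝ) else 1) := by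
      funext ω
      unfold SxE.Pt
      congr
    rw [h2]
    exact h1
  have hys : Measurable e.ys :=
    comp_meas (fun (u : Fin d.n) (ω : e.Ω) => d.y u (e.g ω)) (fun i => (d.ym i).comp hgm) _ e.sm
  have hyt : Measurable (e.yt t) :=
    comp_meas (fun (u : Fin d.n) (ω : e.Ω) => d.y u (e.g ω)) (fun i => (d.ym i).comp hgm) _
      (hsm t)
  have hdm : Measurable (dm e.ys (e.yt t)) := by
    have h1 : Measurable fun p : Fin d.q × Fin d.q => (if p.1 = p.2 then (0 : ℝ) else 1) :=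
      measurable_of_countable _
    have h2 : dm e.ys (e.yt t) = fun ω => (if e.ys ω = e.yt t ω then (0 : ℝ) else 1) := by
      funext ω
      unfold dm
      congr
    rw [h2]
    exact h1.comp (hys.prodMk hyt)
  have hmv : ∀ r, Measurable (e.mv r) := by
    intro r
    have h1 : Measurable fun p : Fin d.n × Fin d.n => (if p.1 = p.2 then (0 : ℝ) else 1) :=
      measurable_of_countable _
    have h2 : e.mv r = fun ω => (if e.s (e.T^[r] ω) = e.s ω then (0 : ℝ) else 1) := by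
      funext ω
      unfold SxE.mv
      congr
    rw [h2]
    exact h1.comp ((hsm r).prodMk e.sm)
  have hPt01 : ∀ s ω, 0 ≤ e.Pt s ω ∧ e.Pt s ω ≤ 1 := by
    intro s ω
    unfold SxE.Pt
    split_ifs <;> norm_num
  have hmv01 : ∀ s ω, 0 ≤ e.mv s ω ∧ e.mv s ω ≤ 1 := by
    intro s ω
    unfold SxE.mv
    split_ifs <;> norm_num
  have hdm01 : ∀ ω, 0 ≤ dm e.ys (e.yt t) ω ∧ dm e.ys (e.yt t) ω ≤ 1 := by
    intro ω
    unfold dm
    split_ifs <;> norm_num
  have hye : ∀ᵐ ω ∂e.P, ∀ a b, e.g ω ∈ d.e a b → d.y a (e.g ω) = d.y b (e.g ω) := by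
    rw [ae_all_iff]
    intro a
    rw [ae_all_iff]
    intro b
    exact e.fac.1.quasiMeasurePreserving.ae (d.ye a b)
  have hae : ∀ᵐ ω ∂e.P, dm e.ys (e.yt t) ω ≤ e.Pt t ω := by
    filter_upwards [hye] with ω h
    by_cases h1 : e.g ω ∈ d.e (e.s ω) (e.s (e.T^[t] ω))
    · have h2 : e.ys ω = e.yt t ω := h _ _ h1
      unfold dm
      rw [if_pos h2]
      exact (hPt01 t ω).1
    · have h2 : e.Pt t ω = 1 := by
        unfold SxE.Pt
        rw [if_neg h1]
      rw [h2]
      exact (hdm01 ω).2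
  have h1 := (hC _ e.P e.T d.U A k e.mp d.hU hA).2 _ _ hdm hPtm hdm01 (hPt01 t) hae
  have h2 := hw₀ w hw _ e.P e.T d.U (e.Pt t) A k e.mp d.hU hPtm (hPt01 t) hA hk
  have h3 := proj_diff hW e.P e.T e.mp hA (e.Pt t) hPtm (fun ω => by
    rw [abs_of_nonneg (hPt01 t ω).1]; exact (hPt01 t ω).2) (w ! * k) hM
  -- the moves
  have hgT : ∀ r ω, e.g (e.T^[r] ω) = d.T'^[r] (e.g ω) := by
    intro r
    induction r with
    | zero => exact fun ω => rfl
    | succ r ih =>
      intro ω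
      rw [Function.iterate_succ_apply, Function.iterate_succ_apply, ih, e.fac.2]
  have hpt : ∀ r ω, |e.Pt t ω - e.Pt t (e.T^[r] ω)| ≤ e.mv r ω + e.mv r (e.T^[t] ω) := by
    intro r ω
    by_cases h4 : e.s (e.T^[r] ω) = e.s ω
    · by_cases h5 : e.s (e.T^[r] (e.T^[t] ω)) = e.s (e.T^[t] ω)
      · have h6 : e.Pt t (e.T^[r] ω) = e.Pt t ω := by
          have h7 : e.T^[t] (e.T^[r] ω) = e.T^[r] (e.T^[t] ω) := by
            rw [← Function.iterate_add_apply, ← Function.iterate_add_apply, add_comm]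
          have h8 : e.g (e.T^[r] ω) ∈ d.e (e.s (e.T^[r] ω)) (e.s (e.T^[t] (e.T^[r] ω))) ↔
              e.g ω ∈ d.e (e.s ω) (e.s (e.T^[t] ω)) := by
            rw [h7, h4, h5, hgT]
            exact mem_iter (d.em _ _) r _
          unfold SxE.Pt
          by_cases h9 : e.g ω ∈ d.e (e.s ω) (e.s (e.T^[t] ω))
          · rw [if_pos h9, if_pos (h8.2 h9)]
          · rw [if_neg h9, if_neg fun h => h9 (h8.1 h)]
        rw [h6, sub_self, abs_zero]
        exact add_nonneg (hmv01 r _).1 (hmv01 r _).1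
      · have h6 : e.mv r (e.T^[t] ω) = 1 := by
          unfold SxE.mv
          rw [if_neg h5]
        have h7 := hPt01 t ω
        have h8 := hPt01 t (e.T^[r] ω)
        have h9 := hmv01 r ω
        rw [h6]
        exact abs_le.2 ⟨by linarith, by linarith⟩
    · have h6 : e.mv r ω = 1 := by
        unfold SxE.mv
        rw [if_neg h4]
      have h7 := hPt01 t ω
      have h8 := hPt01 t (e.T^[r] ω)
      have h9 := hmv01 r (e.T^[t] ω)
      rw [h6]
      exact abs_le.2 ⟨by linarith, by linarith⟩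
  have hmvi : ∀ r, Integrable (e.mv r) e.P := fun r =>
    int_of e.P (hmv r) (C := 1) fun ω => by
      rw [abs_of_nonneg (hmv01 r ω).1]; exact (hmv01 r ω).2
  have hmvs : ∀ r, Integrable (fun ω => e.mv r (e.T^[t] ω)) e.P := fun r =>
    int_of e.P ((hmv r).comp (meas_iter e.T t)) (C := 1) fun ω => by
      rw [abs_of_nonneg (hmv01 r _).1]; exact (hmv01 r _).2
  have hI : ∀ r, 0 ≤ ∫ ω in A, e.mv r ω ∂e.P := fun r =>
    integral_nonneg fun ω => (hmv01 r ω).1
  have h4 : ∀ r, ∫ ω in A, |e.Pt t ω - e.Pt t (e.T^[r] ω)| ∂e.P ≤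
      2 * ∫ ω in A, e.mv r ω ∂e.P := by
    intro r
    have hi : Integrable (fun ω => |e.Pt t ω - e.Pt t (e.T^[r] ω)|) e.P :=
      int_of e.P ((hPtm.sub (hPtm.comp (meas_iter e.T r))).abs) (C := 2) fun ω => by
        have h7 := hPt01 t ω
        have h8 := hPt01 t (e.T^[r] ω)
        rw [abs_abs]
        exact abs_le.2 ⟨by linarith, by linarith⟩
    calc ∫ ω in A, |e.Pt t ω - e.Pt t (e.T^[r] ω)| ∂e.P
        ≤ ∫ ω in A, (e.mv r ω + e.mv r (e.T^[t] ω)) ∂e.P :=
          integral_mono hi.integrableOn ((hmvi r).add (hmvs r)).integrableOn (hpt r)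
      _ = ∫ ω in A, e.mv r ω ∂e.P + ∫ ω in A, e.mv r (e.T^[t] ω) ∂e.P :=
          integral_add (hmvi r).integrableOn (hmvs r).integrableOn
      _ = 2 * ∫ ω in A, e.mv r ω ∂e.P := by
          rw [int_shift e.P e.T e.mp hA t (e.mv r)]
          ring
  have hM1 : (1 : ℝ) ≤ ((w ! * k : ℕ) : ℝ) := by exact_mod_cast hM
  have hS : 0 ≤ ∑ r ∈ range (w ! * k), 2 * ∫ ω in A, e.mv r ω ∂e.P :=
    Finset.sum_nonneg fun r _ => mul_nonneg (by norm_num) (hI r)
  have h5 : ∫ ω in A, |(e.P[e.Pt t | Inv e.T (w ! * k)]) ω - (e.P[e.Pt t | Inv e.T 1]) ω| ∂e.P ≤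
      2 * ∑ r ∈ range N, ∫ ω in A, e.mv r ω ∂e.P := by
    refine h3.trans ?_
    calc (∑ r ∈ range (w ! * k), ∫ ω in A, |e.Pt t ω - e.Pt t (e.T^[r] ω)| ∂e.P) /
          ((w ! * k : ℕ) : ℝ)
        ≤ (∑ r ∈ range (w ! * k), 2 * ∫ ω in A, e.mv r ω ∂e.P) / ((w ! * k : ℕ) : ℝ) := by
          gcongr with r hr
          exact h4 r
      _ ≤ ∑ r ∈ range (w ! * k), 2 * ∫ ω in A, e.mv r ω ∂e.P := div_le_self hS hM1
      _ ≤ ∑ r ∈ range N, 2 * ∫ ω in A, e.mv r ω ∂e.P :=
          Finset.sum_le_sum_of_subset_of_nonneg (Finset.range_mono hN)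
            fun r _ _ => mul_nonneg (by norm_num) (hI r)
      _ = 2 * ∑ r ∈ range N, ∫ ω in A, e.mv r ω ∂e.P := by rw [Finset.mul_sum]
  linarith

end Pool.Agent.H39.LF
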