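import Pool.Agent.H25.LF.Targets
import Pool.Agent.H75.PS.Lower
import Mathlib.NumberTheory.Harmonic.Bounds

/-!
HAR: the sum of `1 / φ` over the squarefree numbers up to `z` is at least `log (z + 1)`.
-/

set_option autoImplicit false

open Finset Real ArithmeticFunction
open Pool.Agent.H25.LF

namespace Pool.Agent.H39.LF

open Pool.Agent.H75.PS (SP FF SS FF_eq FF_insert FF_mono FF_nonneg)

/-- the sum of `1 / n` over the `n ≤ z` all of whose prime factors are in `P` -/
noncomputable def SM (P : Finset ℕ) (z : ℕ) : ℝ :=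
  ∑ n ∈ (Icc 1 z).filter (fun n => n.primeFactors ⊆ P), 1 / (n : ℝ)

theorem SM_zero (P : Finset ℕ) : SM P 0 = 0 := by
  unfold SM
  simp

theorem SM_empty (z : ℕ) (g : ℕ → ℝ) : SM ∅ z ≤ FF g ∅ z := by
  rcases Nat.eq_zero_or_pos z with rfl | hz
  · rw [SM_zero]
    exact FF_nonneg g ∅ (by simp) 0
  · have h1 : (Icc 1 z).filter (fun n => n.primeFactors ⊆ (∅ : Finset ℕ)) ⊆ {1} := by
      intro n hn
      rw [Finset.mem_filter, Finset.mem_Icc, Finset.subset_empty, Nat.primeFactors_eq_empty] at hn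
      rw [Finset.mem_singleton]
      omega
    have h2 : SM ∅ z ≤ ∑ n ∈ ({1} : Finset ℕ), 1 / (n : ℝ) := by
      unfold SM
      exact Finset.sum_le_sum_of_subset_of_nonneg h1 (fun n _ _ => by positivity)
    have h3 : FF g ∅ z = 1 := by
      have h5 : ∏ p ∈ (∅ : Finset ℕ), p ≤ z := by
        rw [Finset.prod_empty]
        exact hz
      rw [FF_eq, Finset.powerset_empty, Finset.sum_singleton, if_pos h5, Finset.prod_empty]
    rw [h3]
    refine h2.trans ?_
    simp

theorem SM_insert (P : Finset ℕ) (p z : ℕ) (hp : p.Prime) :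
    SM (insert p P) z ≤ SM P z + 1 / (p : ℝ) * SM (insert p P) (z / p) := by
  classical
  unfold SM
  rw [← Finset.sum_filter_add_sum_filter_not
    ((Icc 1 z).filter (fun n => n.primeFactors ⊆ insert p P)) (fun n => p ∣ n), add_comm]
  have h1 : ∑ n ∈ ((Icc 1 z).filter (fun n => n.primeFactors ⊆ insert p P)).filter
      (fun n => ¬ p ∣ n), 1 / (n : ℝ) ≤
      ∑ n ∈ (Icc 1 z).filter (fun n => n.primeFactors ⊆ P), 1 / (n : ℝ) := by
    apply Finset.sum_le_sum_of_subset_of_nonneg
    · intro n hn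
      rw [Finset.mem_filter, Finset.mem_filter] at hn
      rw [Finset.mem_filter]
      refine ⟨hn.1.1, ?_⟩
      intro q hq
      have hq1 := hn.1.2 hq
      rw [Finset.mem_insert] at hq1
      rcases hq1 with rfl | hq1
      · exact absurd (Nat.dvd_of_mem_primeFactors hq) hn.2
      · exact hq1
    · intro n _ _
      positivity
  have h2 : ∑ n ∈ ((Icc 1 z).filter (fun n => n.primeFactors ⊆ insert p P)).filter
      (fun n => p ∣ n), 1 / (n : ℝ) ≤
      1 / (p : ℝ) * ∑ n ∈ (Icc 1 (z / p)).filter (fun n => n.primeFactors ⊆ insert p P),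
        1 / (n : ℝ) := by
    have h3 : ((Icc 1 z).filter (fun n => n.primeFactors ⊆ insert p P)).filter
        (fun n => p ∣ n) ⊆
        ((Icc 1 (z / p)).filter (fun n => n.primeFactors ⊆ insert p P)).image
          (fun m => p * m) := by
      intro n hn
      rw [Finset.mem_filter, Finset.mem_filter, Finset.mem_Icc] at hn
      obtain ⟨⟨⟨hn1, hn2⟩, hn3⟩, m, rfl⟩ := hn
      rw [Finset.mem_image]
      have hm0 : m ≠ 0 := by
        rintro rfl
        simp at hn1
      refine ⟨m, ?_, rfl⟩
      rw [Finset.mem_filter, Finset.mem_Icc]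
      refine ⟨⟨Nat.one_le_iff_ne_zero.mpr hm0, ?_⟩, ?_⟩
      · rw [Nat.le_div_iff_mul_le hp.pos, mul_comm]
        exact hn2
      · refine subset_trans ?_ hn3
        exact Nat.primeFactors_mono (Dvd.intro_left p rfl) (Nat.mul_ne_zero hp.ne_zero hm0)
    have hinj : Set.InjOn (fun m => p * m)
        (((Icc 1 (z / p)).filter (fun n => n.primeFactors ⊆ insert p P) : Finset ℕ) : Set ℕ) := by
      intro a _ b _ hab
      exact Nat.eq_of_mul_eq_mul_left hp.pos hab
    refine (Finset.sum_le_sum_of_subset_of_nonneg h3 (fun n _ _ => by positivity)).trans ?_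
    rw [Finset.sum_image hinj, Finset.mul_sum]
    apply Finset.sum_le_sum
    intro m _
    rw [Nat.cast_mul, one_div_mul_one_div_rev, mul_comm]
  exact add_le_add h1 h2

theorem SM_le (P : Finset ℕ) : (∀ p ∈ P, p.Prime) → ∀ z : ℕ,
    SM P z ≤ FF (fun p => 1 / ((p : ℝ) - 1)) P z := by
  classical
  induction P using Finset.induction_on with
  | empty =>
    intro _ z
    exact SM_empty z _
  | insert p P hp ih =>
    intro h
    have hpp : p.Prime := h p (Finset.mem_insert_self p P)
    have hP : ∀ q ∈ P, q.Prime := fun q hq => h q (Finset.mem_insert_of_mem hq)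
    have ih' := ih hP
    have hg : ∀ q ∈ P, 0 ≤ (fun p : ℕ => 1 / ((p : ℝ) - 1)) q := by
      intro q hq
      have h1 : (1 : ℝ) ≤ (q : ℝ) := by exact_mod_cast (hP q hq).one_le
      exact one_div_nonneg.mpr (by linarith)
    have hp2 : (2 : ℝ) ≤ (p : ℝ) := by exact_mod_cast hpp.two_le
    intro z
    induction z using Nat.strong_induction_on with
    | _ z ihz =>
      rcases Nat.eq_zero_or_pos z with rfl | hz
      · rw [SM_zero]
        apply FF_nonneg
        intro q hq
        have h1 : (1 : ℝ) ≤ (q : ℝ) := by exact_mod_cast (h q hq).one_le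
        exact one_div_nonneg.mpr (by linarith)
      · have h1 := SM_insert P p z hpp
        have h2 := ihz (z / p) (Nat.div_lt_self hz hpp.one_lt)
        rw [FF_insert _ P (z / p) p hp hpp.pos] at h2
        rw [FF_insert _ P z p hp hpp.pos]
        have h3 := ih' z
        have h4 := FF_mono (fun p : ℕ => 1 / ((p : ℝ) - 1)) P hg (Nat.div_le_self (z / p) p)
        have h5 := FF_nonneg (fun p : ℕ => 1 / ((p : ℝ) - 1)) P hg (z / p)
        set F := FF (fun p => 1 / ((p : ℝ) - 1)) P (z / p) with hF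
        set F0 := FF (fun p => 1 / ((p : ℝ) - 1)) P (z / p / p) with hF0
        have h6 : (0 : ℝ) < (p : ℝ) - 1 := by linarith
        have h7 : (0 : ℝ) < (p : ℝ) := by linarith
        have h8 : 1 / ((p : ℝ) - 1) * F0 ≤ 1 / ((p : ℝ) - 1) * F :=
          mul_le_mul_of_nonneg_left h4 (by positivity)
        have h9 : SM (insert p P) (z / p) ≤ F + 1 / ((p : ℝ) - 1) * F := by
          linarith
        have h10 : 1 / (p : ℝ) * SM (insert p P) (z / p) ≤
            1 / (p : ℝ) * (F + 1 / ((p : ℝ) - 1) * F) :=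
          mul_le_mul_of_nonneg_left h9 (by positivity)
        have h11 : 1 / (p : ℝ) * (F + 1 / ((p : ℝ) - 1) * F) = 1 / ((p : ℝ) - 1) * F := by
          field_simp
          ring
        rw [h11] at h10
        linarith

theorem pf_HAR : T_HAR := by
  intro z
  have h1 := log_add_one_le_harmonic z
  have h2 : ((harmonic z : ℚ) : ℝ) = ∑ n ∈ Icc 1 z, 1 / (n : ℝ) := by
    simp only [harmonic_eq_sum_Icc, Rat.cast_sum, Rat.cast_inv, Rat.cast_natCast, one_div]
  have h3 : ∑ n ∈ Icc 1 z, 1 / (n : ℝ) = SM (Nat.primesLE z) z := by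
    unfold SM
    congr 1
    symm
    apply Finset.filter_true_of_mem
    intro n hn q hq
    rw [Finset.mem_Icc] at hn
    rw [Nat.mem_primesLE]
    exact ⟨(Nat.le_of_mem_primeFactors hq).trans hn.2, Nat.prime_of_mem_primeFactors hq⟩
  have h4 := SM_le (Nat.primesLE z) (fun p hp => (Nat.mem_primesLE.mp hp).2) z
  rw [h2, h3] at h1
  have h5 : Real.log ((z : ℝ) + 1) = Real.log ((z + 1 : ℕ) : ℝ) := by push_cast; rfl
  rw [h5]
  exact h1.trans h4

end Pool.Agent.H39.LF
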